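import Mathlib

/-!
# MP_f10132_gt : a temperate frame that is not spatial

The frame is obtained from a nontrivial frame `B` without prime elements (the regular open subsets
of the real line) by adding a new top element.
-/

namespace Pool.Agent.Results.MP_f10132_gt.TemperateNonSpatial

open Set Topology TopologicalSpace

universe u

section defs

variable {L : Type} [Order.Frame L]

/-- `F` is a filter on the lattice `L`. -/
def IsFilt (F : Set L) : Prop :=
  F.Nonempty ∧ (∀ a ∈ F, ∀ b, a ≤ b → b ∈ F) ∧ ∀ a ∈ F, ∀ b ∈ F, ∃ c ∈ F, c ≤ a ∧ c ≤ b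

/-- `U` is Scott-open. -/
def ScottOpen (U : Set L) : Prop :=
  (∀ a ∈ U, ∀ b, a ≤ b → b ∈ U) ∧
    ∀ D : Set L, D.Nonempty → DirectedOn (· ≤ ·) D → sSup D ∈ U → ∃ d ∈ D, d ∈ U

/-- The join `{u ⊓ v | u ∈ F, v ∈ G}` of two filters. -/
def join (F G : Set L) : Set L := {w | ∃ u ∈ F, ∃ v ∈ G, w = u ⊓ v}

variable (L)

/-- `L` is locally temperate. -/
def LocallyTemperate : Prop :=
  ∀ F G : Set L, IsFilt F → ScottOpen F → IsFilt G → ScottOpen G → ScottOpen (join F G)

/-- `L` is temperate. -/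
def Temperate : Prop := LocallyTemperate L ∧ ScottOpen ({⊤} : Set L)

/-- `L` is spatial: isomorphic to the frame of open sets of a topological space. -/
def Spatial : Prop := ∃ (X : Type u) (_ : TopologicalSpace X), Nonempty (L ≃o Opens X)

end defs

section construction

variable (B : Type) [Order.Frame B]

/-- `B` with a new top element. -/
def WT : Type := {x : B × Prop // x.2 → x.1 = ⊤}

variable {B}

instance : LE (WT B) := ⟨fun x y => x.1 ≤ y.1⟩
instance : LT (WT B) := ⟨fun x y => x.1 < y.1⟩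
noncomputable instance : Max (WT B) := ⟨fun x y => ⟨x.1 ⊔ y.1, by
  rintro (h | h)
  · show x.1.1 ⊔ y.1.1 = ⊤
    rw [x.2 h, top_sup_eq]
  · show x.1.1 ⊔ y.1.1 = ⊤
    rw [y.2 h, sup_top_eq]⟩⟩
noncomputable instance : Min (WT B) := ⟨fun x y => ⟨x.1 ⊓ y.1, by
  rintro ⟨h, h'⟩
  show x.1.1 ⊓ y.1.1 = ⊤
  rw [x.2 h, y.2 h', top_inf_eq]⟩⟩
noncomputable instance : SupSet (WT B) := ⟨fun s => ⟨⨆ a ∈ s, a.1, by
  intro h
  simp only [Prod.snd_iSup, iSup_Prop_eq, exists_prop] at h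
  obtain ⟨a, ha, h⟩ := h
  simp only [Prod.fst_iSup]
  exact top_le_iff.1 ((a.2 h).ge.trans (le_iSup₂ (f := fun (a : WT B) (_ : a ∈ s) => a.1.1) a ha))⟩⟩
noncomputable instance : InfSet (WT B) := ⟨fun s => ⟨⨅ a ∈ s, a.1, by
  intro h
  simp only [Prod.snd_iInf, iInf_Prop_eq] at h
  simp only [Prod.fst_iInf]
  exact top_le_iff.1 (le_iInf₂ fun a ha => (a.2 (h a ha)).ge)⟩⟩
instance : Top (WT B) := ⟨⟨⊤, fun _ => rfl⟩⟩
instance : Bot (WT B) := ⟨⟨⊥, fun h => h.elim⟩⟩

noncomputable instance : CompleteLattice (WT B) :=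
  Function.Injective.completeLattice (fun x : WT B => x.1) Subtype.val_injective
    Iff.rfl Iff.rfl (fun _ _ => rfl) (fun _ _ => rfl) (fun _ => rfl) (fun _ => rfl) rfl rfl

lemma le_def (x y : WT B) : x ≤ y ↔ x.1 ≤ y.1 := Iff.rfl

noncomputable instance : Order.Frame (WT B) := .ofMinimalAxioms {
  inf_sSup_le_iSup_inf := by
    intro a s
    set r := ⨆ b ∈ s, a ⊓ b with hr
    have h1 : ∀ b ∈ s, a.1 ⊓ b.1 ≤ r.1 := fun b hb =>
      le_iSup₂ (f := fun (b : WT B) (_ : b ∈ s) => a ⊓ b) b hb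
    show a.1 ⊓ (⨆ b ∈ s, b.1) ≤ r.1
    rw [inf_iSup₂_eq]
    exact iSup₂_le h1 }

/-- Elements of `B` in `WT B`. -/
def emb (b : B) : WT B := ⟨(b, False), fun h => h.elim⟩

lemma emb_le {a b : B} : emb a ≤ emb b ↔ a ≤ b := by
  rw [le_def]
  constructor
  · exact fun h => h.1
  · exact fun h => ⟨h, le_rfl⟩

lemma eq_top_or_emb (x : WT B) : x = ⊤ ∨ ∃ b, x = emb b := by
  by_cases h : x.1.2
  · left
    apply Subtype.ext
    exact Prod.ext (x.2 h) (eq_true h)
  · right
    exact ⟨x.1.1, Subtype.ext (Prod.ext rfl (eq_false h))⟩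

lemma emb_ne_top (b : B) : emb b ≠ ⊤ := by
  intro h
  have h1 : (emb b).1.2 = (⊤ : WT B).1.2 := by rw [h]
  have h2 : (emb b).1.2 = False := rfl
  have h3 : (⊤ : WT B).1.2 = True := rfl
  rw [h2, h3] at h1
  exact false_ne_true h1

lemma emb_sSup (D : Set B) : emb (sSup D) = sSup (emb '' D) := by
  apply le_antisymm
  · have h1 : ∀ d ∈ D, emb d ≤ sSup (emb '' D) := fun d hd => le_sSup ⟨d, hd, rfl⟩
    rw [le_def]
    refine ⟨sSup_le fun d hd => (h1 d hd).1, ?_⟩
    exact fun h => h.elim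
  · apply sSup_le
    rintro _ ⟨d, hd, rfl⟩
    exact emb_le.2 (le_sSup hd)

lemma bot_eq : (⊥ : WT B) = emb ⊥ := rfl

/-- `B` has no prime elements. -/
def NoPrime (B : Type) [Order.Frame B] : Prop :=
  ∀ p : B, p ≠ ⊤ → ∃ u v : B, u ⊓ v ≤ p ∧ ¬ u ≤ p ∧ ¬ v ≤ p

lemma filt_inf {L : Type} [Order.Frame L] {F : Set L} (hF : IsFilt F) {a b : L} (ha : a ∈ F)
    (hb : b ∈ F) : a ⊓ b ∈ F := by
  obtain ⟨c, hc, hca, hcb⟩ := hF.2.2 a ha b hb
  exact hF.2.1 c hc _ (le_inf hca hcb)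

/-- The Scott-open filters of `WT B`. -/
lemma filters (hB : NoPrime B) {F : Set (WT B)} (hF : IsFilt F) (hS : ScottOpen F) :
    F = {⊤} ∨ F = univ := by
  by_cases h : ∃ b, emb b ∈ F
  · right
    obtain ⟨b, hb⟩ := h
    suffices hbot : emb (⊥ : B) ∈ F by
      rw [eq_univ_iff_forall]
      intro x
      exact hF.2.1 _ hbot x (by rw [← bot_eq]; exact bot_le)
    by_contra hcon
    obtain ⟨p, hp⟩ := zorn_le_nonempty₀ {b : B | emb b ∉ F} (by
      intro c hc hchain y hy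
      refine ⟨sSup c, ?_, fun z hz => le_sSup hz⟩
      intro hcon
      rw [emb_sSup] at hcon
      obtain ⟨_, ⟨d, hd, rfl⟩, hd'⟩ := hS.2 (emb '' c) (Set.Nonempty.image _ ⟨y, hy⟩) (by
        rintro _ ⟨a, ha, rfl⟩ _ ⟨b, hb, rfl⟩
        obtain ⟨e, he, hae, hbe⟩ := hchain.directedOn a ha b hb
        exact ⟨emb e, ⟨e, he, rfl⟩, emb_le.2 hae, emb_le.2 hbe⟩) hcon
      exact hc hd hd') ⊥ hcon
    have hpF : emb p ∉ F := hp.2.1
    have hpt : p ≠ ⊤ := by
      rintro rfl
      exact hpF (hF.2.1 _ hb _ (emb_le.2 le_top))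
    obtain ⟨u, v, huv, hu, hv⟩ := hB p hpt
    have hmax : ∀ w, ¬ w ≤ p → emb (p ⊔ w) ∈ F := by
      intro w hw
      by_contra hcon
      exact hw (le_sup_right.trans (hp.2.2 hcon le_sup_left))
    have h1 := filt_inf hF (hmax u hu) (hmax v hv)
    have h2 : emb (p ⊔ u) ⊓ emb (p ⊔ v) = emb p := by
      apply Subtype.ext
      apply Prod.ext
      · show (p ⊔ u) ⊓ (p ⊔ v) = p
        rw [← sup_inf_left, sup_eq_left.2 huv]
      · show (False ∧ False) = False
        simp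
    rw [h2] at h1
    exact hpF h1
  · left
    push Not at h
    obtain ⟨x, hx⟩ := hF.1
    apply Subset.antisymm
    · intro y hy
      rcases eq_top_or_emb y with rfl | ⟨b, rfl⟩
      · rfl
      · exact absurd hy (h b)
    · rintro _ rfl
      exact hF.2.1 x hx _ le_top

lemma scottOpen_top : ScottOpen ({⊤} : Set (WT B)) := by
  constructor
  · rintro _ rfl b hb
    exact top_le_iff.1 hb
  · intro D _ _ hD
    by_contra hcon
    push Not at hcon
    have h1 : sSup D ≤ emb ⊤ := by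
      apply sSup_le
      intro d hd
      rcases eq_top_or_emb d with rfl | ⟨b, rfl⟩
      · exact absurd rfl (hcon _ hd)
      · exact emb_le.2 le_top
    rw [mem_singleton_iff.1 hD] at h1
    exact emb_ne_top _ (top_le_iff.1 h1)

lemma scottOpen_univ : ScottOpen (univ : Set (WT B)) :=
  ⟨fun _ _ _ _ => trivial, fun D hD _ _ => by
    obtain ⟨d, hd⟩ := hD
    exact ⟨d, hd, trivial⟩⟩

theorem temperate (hB : NoPrime B) : Temperate (WT B) := by
  refine ⟨?_, scottOpen_top⟩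
  intro F G hF hSF hG hSG
  rcases filters hB hF hSF with rfl | rfl
  · rcases filters hB hG hSG with rfl | rfl
    · have : join ({⊤} : Set (WT B)) {⊤} = {⊤} := by
        ext x
        constructor
        · rintro ⟨_, rfl, _, rfl, rfl⟩
          exact inf_idem _
        · rintro rfl
          exact ⟨⊤, rfl, ⊤, rfl, (inf_idem _).symm⟩
      rw [this]
      exact scottOpen_top
    · have : join ({⊤} : Set (WT B)) univ = univ := by
        rw [eq_univ_iff_forall]
        intro x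
        exact ⟨⊤, rfl, x, trivial, (top_inf_eq x).symm⟩
      rw [this]
      exact scottOpen_univ
  · obtain ⟨g, hg⟩ := hG.1
    have : join (univ : Set (WT B)) G = univ := by
      rw [eq_univ_iff_forall]
      intro x
      refine ⟨x, trivial, g ⊔ x, hG.2.1 g hg _ le_sup_left, ?_⟩
      exact (inf_eq_left.2 le_sup_right).symm
    rw [this]
    exact scottOpen_univ

theorem not_spatial (hB : NoPrime B) (hB' : (⊤ : B) ≠ ⊥) : ¬ Spatial.{u} (WT B) := by
  rintro ⟨X, _, ⟨e⟩⟩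
  have key : e (emb ⊤) ≤ ⊥ := by
    intro x hx
    exfalso
    have hF : IsFilt {w : WT B | x ∈ e w} := by
      refine ⟨⟨_, hx⟩, fun a ha b hab => e.monotone hab ha, fun a ha b hb => ⟨a ⊓ b, ?_, inf_le_left, inf_le_right⟩⟩
      show x ∈ e (a ⊓ b)
      rw [map_inf]
      exact ⟨ha, hb⟩
    have hS : ScottOpen {w : WT B | x ∈ e w} := by
      refine ⟨fun a ha b hab => e.monotone hab ha, fun D _ _ hD => ?_⟩
      have hD' : x ∈ e (sSup D) := hD
      rw [e.map_sSup] at hD'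
      simp only [Opens.mem_iSup, exists_prop] at hD'
      exact hD'
    rcases filters hB hF hS with h | h
    · have h1 : emb (⊤ : B) ∈ {w : WT B | x ∈ e w} := hx
      rw [h] at h1
      exact emb_ne_top _ h1
    · have h1 : (⊥ : WT B) ∈ {w : WT B | x ∈ e w} := by rw [h]; trivial
      have h2 : x ∈ e ⊥ := h1
      rw [e.map_bot] at h2
      exact h2
  have h1 : e (emb ⊤) = e ⊥ := by
    rw [e.map_bot]
    exact le_bot_iff.1 key
  have h2 := e.injective h1
  rw [bot_eq] at h2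
  exact hB' (le_antisymm (emb_le.1 h2.le) bot_le)

end construction

/-! ### The regular open sets of the real line -/

/-- The double negation nucleus. -/
def nn : Nucleus (Opens ℝ) where
  toFun U := Uᶜᶜ
  map_inf' := fun U V => compl_compl_inf_distrib U V
  idempotent' := fun U => by
    show Uᶜᶜᶜᶜ ≤ Uᶜᶜ
    rw [compl_compl_compl]
  le_apply' := fun U => le_compl_compl

/-- The frame of regular open sets. -/
abbrev RO : Type := range nn

lemma restrict_val (U : Opens ℝ) : ((nn.restrict U : RO) : Opens ℝ) = Uᶜᶜ := rfl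

lemma noPrime : NoPrime RO := by
  rintro ⟨p, hp⟩ hpt
  have hp' : pᶜᶜ = p := Nucleus.mem_range.1 hp
  have hq : pᶜ ≠ ⊥ := by
    intro h
    apply hpt
    apply Subtype.ext
    show p = ((⊤ : RO) : Opens ℝ)
    have h1 : ((⊤ : RO) : Opens ℝ) = ⊤ := by
      rw [← map_top nn.restrict, restrict_val]
      simp
    rw [h1, ← hp', h]
    simp
  obtain ⟨x, hx⟩ : ∃ x : ℝ, x ∈ pᶜ := by
    by_contra hcon
    push Not at hcon
    exact hq (le_bot_iff.1 fun x hx => (hcon x hx).elim)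
  obtain ⟨r, hr, hball⟩ := Metric.isOpen_iff.1 (pᶜ).isOpen x hx
  set u0 : Opens ℝ := ⟨Ioo (x - r) x, isOpen_Ioo⟩ with hu0
  set v0 : Opens ℝ := ⟨Ioo x (x + r), isOpen_Ioo⟩ with hv0
  have hu : u0 ≤ pᶜ := by
    intro y hy
    apply hball
    rw [Metric.mem_ball, Real.dist_eq, abs_lt]
    constructor <;> linarith [hy.1, hy.2]
  have hv : v0 ≤ pᶜ := by
    intro y hy
    apply hball
    rw [Metric.mem_ball, Real.dist_eq, abs_lt]
    constructor <;> linarith [hy.1, hy.2]
  have huv : u0 ⊓ v0 = ⊥ := by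
    rw [← le_bot_iff]
    rintro y ⟨h1, h2⟩
    exact (lt_asymm h1.2 h2.1).elim
  have key : ∀ w : Opens ℝ, w ≤ pᶜ → (∃ y, y ∈ w) → ¬ nn.restrict w ≤ (⟨p, hp⟩ : RO) := by
    rintro w hw ⟨y, hy⟩ hle
    have h1 : wᶜᶜ ≤ p := hle
    have h2 : w ≤ p := le_compl_compl.trans h1
    have h3 : w ≤ p ⊓ pᶜ := le_inf h2 hw
    rw [inf_compl_self] at h3
    exact h3 hy
  refine ⟨nn.restrict u0, nn.restrict v0, ?_, key u0 hu ⟨x - r / 2, ?_⟩, key v0 hv ⟨x + r / 2, ?_⟩⟩
  · rw [← map_inf, huv, map_bot]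
    exact bot_le
  · constructor <;> linarith
  · constructor <;> linarith

lemma nontriv : (⊤ : RO) ≠ ⊥ := by
  intro h
  have h1 : ((⊤ : RO) : Opens ℝ) = ⊤ := by
    rw [← map_top nn.restrict, restrict_val]
    simp
  have h2 : ((⊥ : RO) : Opens ℝ) = ⊥ := by
    rw [← map_bot nn.restrict, restrict_val]
    simp
  have h3 : (⊤ : Opens ℝ) = ⊥ := by rw [← h1, ← h2, h]
  have h4 : (0 : ℝ) ∈ (⊤ : Opens ℝ) := trivial
  rw [h3] at h4
  exact h4

/-- There is a temperate frame that is not spatial. -/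
theorem result : ∃ (L : Type) (_ : Order.Frame L), Temperate L ∧ ¬ Spatial.{u} L :=
  ⟨WT RO, inferInstance, temperate noPrime, not_spatial noPrime nontriv⟩

end Pool.Agent.Results.MP_f10132_gt.TemperateNonSpatial
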